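import Mathlib

/-! A truncated Green function bound for the difference of two oriented walks. -/

set_option autoImplicit false

namespace Pool.Agent.H57R2.PU

/-- directions -/
abbrev Bt (D : ℕ) : Type := Fin D → Bool

/-- the horizontal part of a step -/
def st {D : ℕ} (a : Bt D) : Fin D → ℤ := fun i => if a i then 2 else 1

/-- one-dimensional kernel `C(2k, k + y) / 4^k` -/
noncomputable def w (k : ℕ) (y : ℤ) : ℝ :=
  if 0 ≤ (k : ℤ) + y then ((2 * k).choose ((k : ℤ) + y).toNat : ℝ) / 4 ^ k else 0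

theorem w_nonneg (k : ℕ) (y : ℤ) : 0 ≤ w k y := by
  unfold w
  split_ifs <;> positivity

theorem w_zero (y : ℤ) : w 0 y = if y = 0 then 1 else 0 := by
  unfold w
  rcases lt_trichotomy y 0 with h | h | h
  · rw [if_neg (by push_cast; omega), if_neg (by omega)]
  · subst h
    simp
  · rw [if_pos (by push_cast; omega), if_neg (by omega)]
    have : ((0 : ℕ) : ℤ) + y = y := by simp
    rw [this]
    obtain ⟨m, rfl⟩ := Int.eq_ofNat_of_zero_le h.le
    have hm : 0 < m := by exact_mod_cast h
    rw [Int.toNat_natCast, Nat.mul_zero, Nat.choose_eq_zero_of_lt hm]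
    simp

theorem w_succ (k : ℕ) (y : ℤ) : w (k + 1) y = (w k (y - 1) + 2 * w k y + w k (y + 1)) / 4 := by
  rcases lt_trichotomy ((k : ℤ) + y) (-1) with h | h | h
  · unfold w
    rw [if_neg (by push_cast; omega), if_neg (by omega), if_neg (by omega), if_neg (by omega)]
    norm_num
  · unfold w
    rw [if_pos (by push_cast; omega), if_neg (by omega), if_neg (by omega), if_pos (by omega)]
    have h1 : (((k + 1 : ℕ) : ℤ) + y).toNat = 0 := by push_cast; omega
    have h2 : ((k : ℤ) + (y + 1)).toNat = 0 := by omega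
    rw [h1, h2, Nat.choose_zero_right, Nat.choose_zero_right, pow_succ]
    push_cast
    field_simp
    norm_num
  · rcases (show (k : ℤ) + y = 0 ∨ 0 < (k : ℤ) + y by omega) with h0 | h0
    · unfold w
      rw [if_pos (by push_cast; omega), if_neg (by omega), if_pos (by omega), if_pos (by omega)]
      have h1 : (((k + 1 : ℕ) : ℤ) + y).toNat = 1 := by push_cast; omega
      have h2 : ((k : ℤ) + y).toNat = 0 := by omega
      have h3 : ((k : ℤ) + (y + 1)).toNat = 1 := by omega
      rw [h1, h2, h3, Nat.choose_zero_right, Nat.choose_one_right, Nat.choose_one_right, pow_succ]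
      push_cast
      field_simp
      ring
    · obtain ⟨m, hm⟩ : ∃ m : ℕ, (k : ℤ) + y = m + 1 := ⟨((k : ℤ) + y - 1).toNat, by omega⟩
      unfold w
      rw [if_pos (by push_cast; omega), if_pos (by omega), if_pos (by omega), if_pos (by omega)]
      have h1 : (((k + 1 : ℕ) : ℤ) + y).toNat = m + 2 := by push_cast; omega
      have h2 : ((k : ℤ) + (y - 1)).toNat = m := by omega
      have h3 : ((k : ℤ) + y).toNat = m + 1 := by omega
      have h4 : ((k : ℤ) + (y + 1)).toNat = m + 2 := by omega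
      rw [h1, h2, h3, h4, pow_succ]
      have h5 : (2 * (k + 1)).choose (m + 2) =
          (2 * k).choose m + 2 * (2 * k).choose (m + 1) + (2 * k).choose (m + 2) := by
        rw [show 2 * (k + 1) = (2 * k + 1) + 1 by ring, Nat.choose_succ_succ,
          Nat.choose_succ_succ, Nat.choose_succ_succ]
        ring
      rw [h5]
      push_cast
      field_simp

/-- value at the origin -/
noncomputable abbrev c (k : ℕ) : ℝ := w k 0

theorem c_eq (k : ℕ) : c k = (k.centralBinom : ℝ) / 4 ^ k := by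
  unfold c w
  rw [if_pos (by omega)]
  simp [Nat.centralBinom]

theorem c_succ (k : ℕ) : c (k + 1) = c k * ((2 * k + 1) / (2 * k + 2)) := by
  rw [c_eq, c_eq]
  have h := Nat.succ_mul_centralBinom_succ k
  have h' : ((k : ℝ) + 1) * ((k + 1).centralBinom : ℝ) = 2 * (2 * k + 1) * k.centralBinom := by
    exact_mod_cast h
  have h2 : ((k + 1).centralBinom : ℝ) = 2 * (2 * k + 1) * k.centralBinom / (k + 1) := by
    rw [← h']
    field_simp
  rw [h2, pow_succ]
  field_simp
  ring

theorem c_zero : c 0 = 1 := by rw [c_eq]; simp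

theorem c_pos (k : ℕ) : 0 < c k := by
  rw [c_eq]
  have := Nat.centralBinom_pos k
  positivity

theorem c_sq (k : ℕ) : c k ^ 2 * (3 * k + 1) ≤ 1 := by
  induction k with
  | zero => rw [c_zero]; norm_num
  | succ k ih =>
    rw [c_succ]
    have h : ((2 * (k : ℝ) + 1) / (2 * k + 2)) ^ 2 * (3 * ((k + 1 : ℕ) : ℝ) + 1) ≤ 3 * k + 1 := by
      push_cast
      rw [div_pow, div_mul_eq_mul_div, div_le_iff₀ (by positivity)]
      nlinarith [(Nat.cast_nonneg k : (0 : ℝ) ≤ k)]
    calc (c k * ((2 * (k : ℝ) + 1) / (2 * k + 2))) ^ 2 * (3 * ((k + 1 : ℕ) : ℝ) + 1)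
        = c k ^ 2 * (((2 * (k : ℝ) + 1) / (2 * k + 2)) ^ 2 * (3 * ((k + 1 : ℕ) : ℝ) + 1)) := by
          ring
      _ ≤ c k ^ 2 * (3 * k + 1) := by
          apply mul_le_mul_of_nonneg_left h (by positivity)
      _ ≤ 1 := ih

theorem c_le_one (k : ℕ) : c k ≤ 1 := by
  have h := c_sq k
  have h0 := c_pos k
  have hk : (0 : ℝ) ≤ k := Nat.cast_nonneg k
  by_contra hc
  push Not at hc
  nlinarith

theorem c_pow (k D : ℕ) (hk : 1 ≤ k) (hD : 3 ≤ D) : c k ^ D ≤ c k - c (k + 1) := by
  have h0 := c_pos k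
  have h1 : c k ^ D ≤ c k ^ 3 := pow_le_pow_of_le_one h0.le (c_le_one k) hD
  have hk' : (1 : ℝ) ≤ k := by exact_mod_cast hk
  have h2 : c k ^ 2 * (2 * k + 2) ≤ 1 := by
    have := c_sq k
    have h3 : c k ^ 2 * (2 * k + 2) ≤ c k ^ 2 * (3 * k + 1) :=
      mul_le_mul_of_nonneg_left (by linarith) (by positivity)
    linarith
  have h4 : c k - c (k + 1) = c k / (2 * k + 2) := by
    rw [c_succ]
    field_simp
    ring
  rw [h4, le_div_iff₀ (by positivity)]
  calc c k ^ D * (2 * k + 2) ≤ c k ^ 3 * (2 * k + 2) :=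
        mul_le_mul_of_nonneg_right h1 (by positivity)
    _ = c k * (c k ^ 2 * (2 * k + 2)) := by ring
    _ ≤ c k * 1 := mul_le_mul_of_nonneg_left h2 h0.le
    _ = c k := mul_one _

variable {D : ℕ}

/-- truncated Green function -/
noncomputable def g (n : ℕ) (z : Fin D → ℤ) : ℝ := ∑ k ∈ Finset.range n, ∏ i, w k (z i)

theorem g_nonneg (n : ℕ) (z : Fin D → ℤ) : 0 ≤ g n z :=
  Finset.sum_nonneg fun _ _ => Finset.prod_nonneg fun _ _ => w_nonneg _ _

theorem g_zero_le (hD : 3 ≤ D) (n : ℕ) : g n (0 : Fin D → ℤ) ≤ 3 / 2 := by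
  have h1 : g n (0 : Fin D → ℤ) = ∑ k ∈ Finset.range n, c k ^ D := by
    unfold g
    refine Finset.sum_congr rfl fun k _ => ?_
    simp
  rw [h1]
  have h2 : ∀ m : ℕ, ∑ k ∈ Finset.range (m + 1), c k ^ D ≤ 1 + (c 1 - c (m + 1)) := by
    intro m
    induction m with
    | zero =>
      simp [c_zero]
    | succ m ih =>
      rw [Finset.sum_range_succ]
      have := c_pow (m + 1) D (by omega) hD
      linarith
  have hc1 : c 1 = 1 / 2 := by
    rw [c_succ, c_zero]
    norm_num
  rcases n with _ | n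
  · simp
    norm_num
  · have := h2 n
    have h3 := c_pos (n + 1)
    linarith

theorem sum_step (k : ℕ) (z : Fin D → ℤ) :
    ∑ a : Bt D, ∑ b : Bt D, ∏ i, w k ((z + st a - st b) i) =
      (2 ^ D) ^ 2 * ∏ i, w (k + 1) (z i) := by
  have h1 : ∀ a : Bt D, ∑ b : Bt D, ∏ i, w k ((z + st a - st b) i) =
      ∏ i, ∑ y : Bool, w k (z i + (if a i then 2 else 1) - (if y then 2 else 1)) := by
    intro a
    rw [Finset.prod_univ_sum, Fintype.piFinset_univ]
    rfl
  simp_rw [h1]
  have h2 : ∑ a : Bt D, ∏ i, ∑ y : Bool, w k (z i + (if a i then 2 else 1) -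
      (if y then 2 else 1)) = ∏ i, ∑ x : Bool, ∑ y : Bool, w k (z i + (if x then 2 else 1) -
      (if y then 2 else 1)) := by
    rw [Finset.prod_univ_sum, Fintype.piFinset_univ]
  rw [h2]
  have h3 : ∀ i, ∑ x : Bool, ∑ y : Bool, w k (z i + (if x then 2 else 1) -
      (if y then 2 else 1)) = 4 * w (k + 1) (z i) := by
    intro i
    rw [w_succ, Fintype.sum_bool, Fintype.sum_bool, Fintype.sum_bool]
    simp only [if_true, Bool.false_eq_true, if_false]
    rw [show z i + 2 - 2 = z i by ring, show z i + 2 - 1 = z i + 1 by ring,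
      show z i + 1 - 2 = z i - 1 by ring, show z i + 1 - 1 = z i by ring]
    ring
  simp_rw [h3]
  rw [Finset.prod_mul_distrib, Finset.prod_const, Finset.card_univ, Fintype.card_fin,
    show (4 : ℝ) = 2 ^ 2 by norm_num, ← pow_mul, ← pow_mul, mul_comm 2 D]

theorem sum_g (n : ℕ) (z : Fin D → ℤ) :
    ∑ a : Bt D, ∑ b : Bt D, g n (z + st a - st b) =
      (2 ^ D) ^ 2 * (g (n + 1) z - if z = 0 then 1 else 0) := by
  have h1 : g (n + 1) z - (if z = 0 then 1 else 0) =
      ∑ k ∈ Finset.range n, ∏ i, w (k + 1) (z i) := by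
    unfold g
    rw [Finset.sum_range_succ']
    have h2 : ∏ i, w 0 (z i) = if z = 0 then 1 else 0 := by
      simp_rw [w_zero]
      by_cases hz : z = 0
      · subst hz
        simp
      · rw [if_neg hz]
        obtain ⟨i, hi⟩ : ∃ i, z i ≠ 0 := by
          by_contra hcon
          push Not at hcon
          exact hz (funext hcon)
        exact Finset.prod_eq_zero (Finset.mem_univ i) (if_neg hi)
    rw [h2]
    ring
  rw [h1, Finset.mul_sum]
  unfold g
  have h3 : ∀ a : Bt D, ∑ b : Bt D, ∑ k ∈ Finset.range n, ∏ i, w k ((z + st a - st b) i) =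
      ∑ k ∈ Finset.range n, ∑ b : Bt D, ∏ i, w k ((z + st a - st b) i) :=
    fun a => Finset.sum_comm
  simp_rw [h3]
  rw [Finset.sum_comm]
  refine Finset.sum_congr rfl fun k _ => ?_
  exact sum_step k z

/-- second moments of the number of open paths: two paths that start at distance `z` -/
noncomputable def R (p : ℝ) : ℕ → (Fin D → ℤ) → ℝ
  | 0, _ => 1
  | n + 1, z => ∑ a : Bt D, ∑ b : Bt D,
      (if z = 0 ∧ a = b then p else p ^ 2) * R p n (z + st a - st b)

theorem R_nonneg (p : ℝ) (hp : 0 ≤ p) (n : ℕ) (z : Fin D → ℤ) : 0 ≤ R p n z := by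
  induction n generalizing z with
  | zero => exact zero_le_one
  | succ n ih =>
    refine Finset.sum_nonneg fun a _ => Finset.sum_nonneg fun b _ => mul_nonneg ?_ (ih _)
    split_ifs <;> positivity

theorem R_le (hD : 3 ≤ D) (p A : ℝ) (hp : 0 < p) (hp1 : p ≤ 1) (hA : 0 ≤ A)
    (hAq : (1 / p - 1) / 2 ^ D * (1 + 3 / 2 * A) ≤ A) (n : ℕ) (z : Fin D → ℤ) :
    R p n z ≤ (2 ^ D * p) ^ (2 * n) * (1 + A * g n z) := by
  induction n generalizing z with
  | zero => simp [R, g]
  | succ n ih =>
    have h1 : R p (n + 1) z = ∑ a : Bt D, ∑ b : Bt D, p ^ 2 * R p n (z + st a - st b) +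
        (if z = 0 then 2 ^ D * (p - p ^ 2) * R p n (0 : Fin D → ℤ) else 0) := by
      have h2 : ∀ a b : Bt D, (if z = 0 ∧ a = b then p else p ^ 2) * R p n (z + st a - st b) =
          p ^ 2 * R p n (z + st a - st b) +
            (if a = b then (if z = 0 then (p - p ^ 2) * R p n (0 : Fin D → ℤ) else 0) else 0) := by
        intro a b
        by_cases hab : a = b
        · subst hab
          by_cases hz : z = 0
          · subst hz
            simp
            ring
          · simp [hz]
        · simp [hab]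
      show ∑ a : Bt D, ∑ b : Bt D,
        (if z = 0 ∧ a = b then p else p ^ 2) * R p n (z + st a - st b) = _
      simp_rw [h2, Finset.sum_add_distrib]
      congr 1
      simp only [Finset.sum_ite_eq, Finset.mem_univ, if_true]
      rw [Finset.sum_const, Finset.card_univ]
      split_ifs
      · simp
        ring
      · simp
    rw [h1]
    have h3 : ∑ a : Bt D, ∑ b : Bt D, p ^ 2 * R p n (z + st a - st b) ≤
        (2 ^ D * p) ^ (2 * (n + 1)) * (1 + A * (g (n + 1) z - if z = 0 then 1 else 0)) := by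
      calc ∑ a : Bt D, ∑ b : Bt D, p ^ 2 * R p n (z + st a - st b)
          ≤ ∑ a : Bt D, ∑ b : Bt D, p ^ 2 *
              ((2 ^ D * p) ^ (2 * n) * (1 + A * g n (z + st a - st b))) := by
            refine Finset.sum_le_sum fun a _ => Finset.sum_le_sum fun b _ => ?_
            exact mul_le_mul_of_nonneg_left (ih _) (by positivity)
        _ = p ^ 2 * (2 ^ D * p) ^ (2 * n) * ((2 ^ D) ^ 2 +
              A * ∑ a : Bt D, ∑ b : Bt D, g n (z + st a - st b)) := by
            simp only [mul_add, Finset.sum_add_distrib, Finset.mul_sum, mul_one]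
            congr 1
            · simp only [Finset.sum_const, Finset.card_univ, Fintype.card_pi, Fintype.card_bool,
                Finset.prod_const, Fintype.card_fin, nsmul_eq_mul]
              push_cast
              ring
            · refine Finset.sum_congr rfl fun a _ => Finset.sum_congr rfl fun b _ => ?_
              ring
        _ = _ := by
            rw [sum_g]
            ring
    have h4 : (if z = 0 then 2 ^ D * (p - p ^ 2) * R p n (0 : Fin D → ℤ) else 0) ≤
        (2 ^ D * p) ^ (2 * (n + 1)) * (A * if z = 0 then 1 else 0) := by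
      split_ifs with hz
      · have h5 : R p n (0 : Fin D → ℤ) ≤ (2 ^ D * p) ^ (2 * n) * (1 + 3 / 2 * A) := by
          refine (ih 0).trans (mul_le_mul_of_nonneg_left ?_ (by positivity))
          have := mul_le_mul_of_nonneg_left (g_zero_le hD n) hA
          linarith
        have h6 : (0 : ℝ) ≤ p - p ^ 2 := by nlinarith
        calc 2 ^ D * (p - p ^ 2) * R p n (0 : Fin D → ℤ)
            ≤ 2 ^ D * (p - p ^ 2) * ((2 ^ D * p) ^ (2 * n) * (1 + 3 / 2 * A)) :=
              mul_le_mul_of_nonneg_left h5 (by positivity)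
          _ = (2 ^ D * p) ^ (2 * (n + 1)) * ((1 / p - 1) / 2 ^ D * (1 + 3 / 2 * A)) := by
              rw [show 2 * (n + 1) = 2 * n + 2 by ring, pow_add]
              field_simp
          _ ≤ (2 ^ D * p) ^ (2 * (n + 1)) * A := mul_le_mul_of_nonneg_left hAq (by positivity)
          _ = _ := by ring
      · simp
    calc _ ≤ _ := add_le_add h3 h4
      _ = _ := by ring

/-- the second moment is comparable with the square of the first moment -/
theorem R_zero_le (hD : 3 ≤ D) (p κ : ℝ) (hp : 0 < p) (hp1 : p ≤ 1)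
    (hκ : 3 / 2 * ((1 / p - 1) / 2 ^ D) ≤ κ) (hκ1 : κ < 1) (n : ℕ) :
    (1 - κ) * R p n (0 : Fin D → ℤ) ≤ (2 ^ D * p) ^ (2 * n) := by
  have hq : 0 ≤ (1 / p - 1) / 2 ^ D := by
    apply div_nonneg _ (by positivity)
    rw [sub_nonneg, le_div_iff₀ hp]
    linarith
  have hκ0 : 0 ≤ κ := le_trans (by positivity) hκ
  obtain ⟨A, hA⟩ : ∃ A : ℝ, A = (2 / 3) * κ / (1 - κ) := ⟨_, rfl⟩
  have h1κ : 0 < 1 - κ := by linarith
  have hA0 : 0 ≤ A := by rw [hA]; positivity
  have hA1 : 1 + 3 / 2 * A = 1 / (1 - κ) := by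
    rw [hA]
    field_simp
    ring
  have hAq : (1 / p - 1) / 2 ^ D * (1 + 3 / 2 * A) ≤ A := by
    rw [hA1, hA, mul_one_div]
    apply div_le_div_of_nonneg_right _ h1κ.le
    linarith
  have h := R_le hD p A hp hp1 hA0 hAq n 0
  have h2 : R p n (0 : Fin D → ℤ) ≤ (2 ^ D * p) ^ (2 * n) * (1 / (1 - κ)) := by
    rw [← hA1]
    refine h.trans (mul_le_mul_of_nonneg_left ?_ (by positivity))
    have := mul_le_mul_of_nonneg_left (g_zero_le hD n) hA0
    linarith
  calc (1 - κ) * R p n (0 : Fin D → ℤ) ≤ (1 - κ) * ((2 ^ D * p) ^ (2 * n) * (1 / (1 - κ))) :=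
        mul_le_mul_of_nonneg_left h2 h1κ.le
    _ = _ := by field_simp

end Pool.Agent.H57R2.PU
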