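import Mathlib
import Pool.Agent.H57R2.PU.Green

/-! Bernoulli percolation on a graph: elementary facts, second moment inequality. -/

set_option autoImplicit false

open MeasureTheory

namespace Pool.Agent.H57R2.PU

section general

variable {V : Type} (G : SimpleGraph V) (p : NNReal) (hp : p ≤ 1)

/-- the law of Bernoulli bond percolation -/
noncomputable abbrev mu : Measure (G.edgeSet → Bool) :=
  Measure.infinitePi (fun _ : G.edgeSet => (PMF.bernoulli p hp).toMeasure)

/-- the edge `e` is open -/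
def op {G : SimpleGraph V} (ω : G.edgeSet → Bool) (e : Sym2 V) : Prop :=
  ∃ h : e ∈ G.edgeSet, ω ⟨e, h⟩ = true

theorem mu_op (F : Finset (Sym2 V)) (hF : ∀ e ∈ F, e ∈ G.edgeSet) :
    (mu G p hp).real {ω | ∀ e ∈ F, op ω e} = (p : ℝ) ^ F.card := by
  classical
  have h1 : {ω : G.edgeSet → Bool | ∀ e ∈ F, op ω e} =
      Set.pi (F.subtype (· ∈ G.edgeSet)) (fun _ => {true}) := by
    ext ω
    simp only [Set.mem_ofPred_eq, Set.mem_pi, Finset.mem_coe, Finset.mem_subtype,
      Set.mem_singleton_iff, op]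
    constructor
    · rintro h ⟨e, he⟩ heF
      exact (h e heF).2
    · intro h e he
      exact ⟨hF e he, h ⟨e, hF e he⟩ he⟩
  rw [h1, Measure.real, Measure.infinitePi_pi _ (fun _ _ => measurableSet_singleton _)]
  have h2 : (PMF.bernoulli p hp).toMeasure {true} = (p : ENNReal) := by
    rw [PMF.toMeasure_apply_singleton _ _ (measurableSet_singleton _)]
    rfl
  rw [Finset.prod_congr rfl (fun i _ => h2), Finset.prod_const, Finset.card_subtype,
    Finset.filter_true_of_mem hF]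
  simp

theorem meas_op (e : Sym2 V) : MeasurableSet {ω : G.edgeSet → Bool | op ω e} := by
  by_cases he : e ∈ G.edgeSet
  · have : {ω : G.edgeSet → Bool | op ω e} = (fun ω => ω ⟨e, he⟩) ⁻¹' {true} := by
      ext ω
      exact ⟨fun h => h.2, fun h => ⟨he, h⟩⟩
    rw [this]
    exact (measurable_pi_apply _) (measurableSet_singleton _)
  · have : {ω : G.edgeSet → Bool | op ω e} = ∅ := by
      ext ω
      exact ⟨fun h => he h.1, fun h => h.elim⟩
    rw [this]
    exact MeasurableSet.empty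

open Classical in
/-- indicator of an open edge -/
noncomputable def I {G : SimpleGraph V} (e : Sym2 V) (ω : G.edgeSet → Bool) : ℝ :=
  if op ω e then 1 else 0

theorem I_nonneg (e : Sym2 V) (ω : G.edgeSet → Bool) : 0 ≤ I e ω := by
  unfold I
  split_ifs <;> norm_num

theorem I_le (e : Sym2 V) (ω : G.edgeSet → Bool) : I e ω ≤ 1 := by
  unfold I
  split_ifs <;> norm_num

theorem I_mul (e : Sym2 V) (ω : G.edgeSet → Bool) : I e ω * I e ω = I e ω := by
  unfold I
  split_ifs <;> norm_num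

theorem I_meas (e : Sym2 V) : Measurable (fun ω : G.edgeSet → Bool => I e ω) := by
  unfold I
  exact Measurable.ite (meas_op G e) measurable_const measurable_const

theorem prod_I (F : Finset (Sym2 V)) (ω : G.edgeSet → Bool) :
    ∏ e ∈ F, I e ω = Set.indicator {ω | ∀ e ∈ F, op ω e} (fun _ => (1 : ℝ)) ω := by
  classical
  by_cases h : ∀ e ∈ F, op ω e
  · rw [Set.indicator_of_mem (by exact h)]
    exact Finset.prod_eq_one fun e he => if_pos (h e he)
  · rw [Set.indicator_of_notMem (by exact h)]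
    push Not at h
    obtain ⟨e, he, h⟩ := h
    exact Finset.prod_eq_zero he (if_neg h)

theorem int_prod_I (F : Finset (Sym2 V)) (hF : ∀ e ∈ F, e ∈ G.edgeSet) :
    ∫ ω, ∏ e ∈ F, I e ω ∂(mu G p hp) = (p : ℝ) ^ F.card := by
  have hm : MeasurableSet {ω : G.edgeSet → Bool | ∀ e ∈ F, op ω e} := by
    have : {ω : G.edgeSet → Bool | ∀ e ∈ F, op ω e} = ⋂ e ∈ F, {ω | op ω e} := by
      ext ω
      simp
    rw [this]
    exact Finset.measurableSet_biInter F fun e _ => meas_op G e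
  simp_rw [prod_I]
  rw [integral_indicator hm, ← mu_op G p hp F hF]
  simp

end general

/-- second moment inequality -/
theorem second_moment {Ω : Type} [MeasurableSpace Ω] (μ : Measure Ω) [IsProbabilityMeasure μ]
    (X : Ω → ℝ) (hX : Measurable X) (C : ℝ) (hC : ∀ ω, |X ω| ≤ C) (m₁ m₂ κ : ℝ)
    (h1 : ∫ ω, X ω ∂μ = m₁) (h2 : ∫ ω, X ω * X ω ∂μ = m₂) (hm1 : 0 < m₁) (hκ : κ < 1)
    (h : (1 - κ) * m₂ ≤ m₁ ^ 2) : 1 - κ ≤ μ.real {ω | X ω ≠ 0} := by
  have hB : MeasurableSet {ω | X ω ≠ 0} := hX (measurableSet_singleton 0).compl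
  obtain ⟨t, ht⟩ : ∃ t : ℝ, t = m₁ / (1 - κ) := ⟨_, rfl⟩
  have hκ' : 0 < 1 - κ := by linarith
  have e1 : ∀ ω, (X ω - t * Set.indicator {ω | X ω ≠ 0} (fun _ => (1 : ℝ)) ω) ^ 2 =
      X ω * X ω - 2 * t * X ω + t ^ 2 * Set.indicator {ω | X ω ≠ 0} (fun _ => (1 : ℝ)) ω := by
    intro ω
    by_cases hω : X ω = 0
    · rw [Set.indicator_of_notMem (by simpa using hω), hω]
      ring
    · rw [Set.indicator_of_mem (by exact hω)]
      ring
  have hi1 : Integrable X μ :=
    Integrable.of_bound hX.aestronglyMeasurable C (Filter.Eventually.of_forall hC)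
  have hi2 : Integrable (fun ω => X ω * X ω) μ := by
    refine Integrable.of_bound (hX.mul hX).aestronglyMeasurable (C * C)
      (Filter.Eventually.of_forall fun ω => ?_)
    rw [norm_mul, Real.norm_eq_abs]
    exact mul_le_mul (hC ω) (hC ω) (abs_nonneg _) ((abs_nonneg _).trans (hC ω))
  have hi3 : Integrable (Set.indicator {ω | X ω ≠ 0} (fun _ => (1 : ℝ))) μ :=
    (integrable_const 1).indicator hB
  have e2 : ∫ ω, (X ω - t * Set.indicator {ω | X ω ≠ 0} (fun _ => (1 : ℝ)) ω) ^ 2 ∂μ =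
      m₂ - 2 * t * m₁ + t ^ 2 * μ.real {ω | X ω ≠ 0} := by
    simp_rw [e1]
    have j1 : Integrable (fun ω => 2 * t * X ω) μ := hi1.const_mul _
    have j2 : Integrable (fun ω => X ω * X ω - 2 * t * X ω) μ := hi2.sub j1
    have j3 : Integrable (fun ω => t ^ 2 * Set.indicator {ω | X ω ≠ 0} (fun _ => (1 : ℝ)) ω) μ :=
      hi3.const_mul _
    rw [integral_add j2 j3, integral_sub hi2 j1, integral_const_mul, integral_const_mul, h1, h2,
      integral_indicator hB]
    simp
  have e3 : 0 ≤ m₂ - 2 * t * m₁ + t ^ 2 * μ.real {ω | X ω ≠ 0} := by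
    rw [← e2]
    exact integral_nonneg fun ω => sq_nonneg _
  have e4 : m₂ ≤ m₁ ^ 2 / (1 - κ) := by
    rw [le_div_iff₀ hκ']
    linarith
  have e5 : 0 ≤ m₁ ^ 2 / (1 - κ) - 2 * t * m₁ + t ^ 2 * μ.real {ω | X ω ≠ 0} := by linarith
  rw [ht] at e5
  have e6 : m₁ ^ 2 / (1 - κ) - 2 * (m₁ / (1 - κ)) * m₁ +
      (m₁ / (1 - κ)) ^ 2 * μ.real {ω | X ω ≠ 0} =
      (m₁ / (1 - κ)) ^ 2 * (μ.real {ω | X ω ≠ 0} - (1 - κ)) := by
    field_simp
    ring
  rw [e6] at e5
  have e7 : 0 < (m₁ / (1 - κ)) ^ 2 := by positivity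
  have := nonneg_of_mul_nonneg_right e5 e7
  linarith

end Pool.Agent.H57R2.PU
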