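import Mathlib
import Pool.Agent.H57R2.PU.Meas

/-! The graph: nearest neighbour lattice with additional diagonal edges in two opposite cones. -/

set_option autoImplicit false

namespace Pool.Agent.H57R2.PU

variable {D : ℕ}

/-- vertices: `D` horizontal coordinates and one vertical coordinate -/
abbrev Vx (D : ℕ) : Type := (Fin D → ℤ) × ℤ

/-- `ℓ¹`-norm -/
def nrm (v : Vx D) : ℤ := |v.2| + ∑ i, |v.1 i|

/-- the upper cone with apex `(0, T)` -/
def cone (D T : ℕ) : Set (Vx D) :=
  {v | (T : ℤ) ≤ v.2 ∧ ∀ i, v.2 - T ≤ v.1 i ∧ v.1 i ≤ 2 * (v.2 - T)}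

/-- a diagonal step -/
def up (v : Vx D) (a : Bt D) : Vx D := (v.1 + st a, v.2 + 1)

/-- the diagonal edges of the two cones -/
def Dg (T : ℕ) (u v : Vx D) : Prop :=
  ∃ (s : ℤ) (x : Vx D) (a : Bt D), (s = 1 ∨ s = -1) ∧ x ∈ cone D T ∧ u = s • x ∧ v = s • up x a

theorem nrm_nonneg (v : Vx D) : 0 ≤ nrm v :=
  add_nonneg (abs_nonneg _) (Finset.sum_nonneg fun _ _ => abs_nonneg _)

theorem nrm_zero : nrm (0 : Vx D) = 0 := by simp [nrm]

theorem nrm_neg (v : Vx D) : nrm (-v) = nrm v := by simp [nrm]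

theorem nrm_smul (s : ℤ) (hs : s = 1 ∨ s = -1) (v : Vx D) : nrm (s • v) = nrm v := by
  rcases hs with rfl | rfl
  · simp
  · rw [neg_one_zsmul, nrm_neg]

theorem nrm_add (u v : Vx D) : nrm (u + v) ≤ nrm u + nrm v := by
  unfold nrm
  have h1 : |(u + v).2| ≤ |u.2| + |v.2| := abs_add_le _ _
  have h2 : ∑ i, |(u + v).1 i| ≤ ∑ i, (|u.1 i| + |v.1 i|) :=
    Finset.sum_le_sum fun i _ => abs_add_le _ _
  rw [Finset.sum_add_distrib] at h2
  linarith

theorem nrm_eq_zero {v : Vx D} (h : nrm v = 0) : v = 0 := by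
  unfold nrm at h
  have h1 : 0 ≤ ∑ i, |v.1 i| := Finset.sum_nonneg fun _ _ => abs_nonneg _
  have h2 := abs_nonneg v.2
  have h3 : v.2 = 0 := abs_eq_zero.1 (by linarith)
  have h4 : ∑ i, |v.1 i| = 0 := by linarith
  rw [Finset.sum_eq_zero_iff_of_nonneg (fun _ _ => abs_nonneg _)] at h4
  refine Prod.ext (funext fun i => ?_) h3
  exact abs_eq_zero.1 (h4 i (Finset.mem_univ i))

/-- unit vectors -/
def nb : Option (Fin D) × Bool → Vx D
  | (none, b) => (0, if b then 1 else -1)
  | (some i, b) => (Pi.single i (if b then 1 else -1), 0)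

theorem nrm_nb (j : Option (Fin D) × Bool) : nrm (nb j) = 1 := by
  obtain ⟨_ | i, b⟩ := j
  · cases b <;> simp [nrm, nb]
  · have : ∀ s : ℤ, |s| = 1 → nrm ((Pi.single i s, 0) : Vx D) = 1 := by
      intro s hs
      simp only [nrm, abs_zero, zero_add]
      rw [Finset.sum_eq_single i]
      · simpa using hs
      · intro j _ hj
        rw [Pi.single_eq_of_ne hj, abs_zero]
      · intro h
        exact absurd (Finset.mem_univ i) h
    cases b
    · exact this _ (by simp)
    · exact this _ (by simp)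

theorem exists_nb {z : Vx D} {n : ℕ} (h : nrm z = n + 1) : ∃ j, nrm (z - nb j) = n := by
  by_cases h2 : z.2 = 0
  · have h3 : ∃ i, z.1 i ≠ 0 := by
      by_contra hc
      push Not at hc
      have : z = 0 := Prod.ext (funext hc) h2
      rw [this, nrm_zero] at h
      omega
    obtain ⟨i, hi⟩ := h3
    have key : ∀ s : ℤ, |z.1 i - s| = |z.1 i| - 1 →
        nrm (z - ((Pi.single i s, 0) : Vx D)) = n := by
      intro s hs
      simp only [nrm] at h ⊢
      have e1 : ∑ j, |(z - ((Pi.single i s, 0) : Vx D)).1 j| = ∑ j, |z.1 j| - 1 := by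
        rw [← Finset.add_sum_erase Finset.univ
            (fun j => |(z - ((Pi.single i s, 0) : Vx D)).1 j|) (Finset.mem_univ i),
          ← Finset.add_sum_erase Finset.univ (fun j => |z.1 j|) (Finset.mem_univ i)]
        have e2 : ∀ j ∈ Finset.univ.erase i, |(z - ((Pi.single i s, 0) : Vx D)).1 j| = |z.1 j| := by
          intro j hj
          simp [Pi.single_eq_of_ne (Finset.ne_of_mem_erase hj)]
        rw [Finset.sum_congr rfl e2]
        have e3 : |(z - ((Pi.single i s, 0) : Vx D)).1 i| = |z.1 i| - 1 := by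
          simpa using hs
        rw [e3]
        ring
      rw [e1]
      have e4 : (z - ((Pi.single i s, 0) : Vx D)).2 = z.2 := by simp
      rw [e4]
      linarith
    rcases lt_or_gt_of_ne hi with hlt | hgt
    · refine ⟨(some i, false), key _ ?_⟩
      simp only [Bool.false_eq_true, if_false]
      rw [abs_of_neg hlt, abs_of_nonpos (by omega)]
      ring
    · refine ⟨(some i, true), key _ ?_⟩
      simp only [if_true]
      rw [abs_of_pos hgt, abs_of_nonneg (by omega)]
  · have key : ∀ s : ℤ, |z.2 - s| = |z.2| - 1 → nrm (z - ((0, s) : Vx D)) = n := by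
      intro s hs
      simp only [nrm] at h ⊢
      have e4 : (z - ((0, s) : Vx D)).2 = z.2 - s := rfl
      have e5 : (z - ((0, s) : Vx D)).1 = z.1 := by simp
      rw [e4, e5, hs]
      linarith
    rcases lt_or_gt_of_ne h2 with hlt | hgt
    · refine ⟨(none, false), key _ ?_⟩
      simp only [Bool.false_eq_true, if_false]
      rw [abs_of_neg hlt, abs_of_nonpos (by omega)]
      ring
    · refine ⟨(none, true), key _ ?_⟩
      simp only [if_true]
      rw [abs_of_pos hgt, abs_of_nonneg (by omega)]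

theorem eq_nb {z : Vx D} (h : nrm z = 1) : ∃ j, z = nb j := by
  obtain ⟨j, hj⟩ := exists_nb (n := 0) (z := z) (by simpa using h)
  exact ⟨j, sub_eq_zero.1 (nrm_eq_zero (by simpa using hj))⟩

theorem st_mem (a : Bt D) (i : Fin D) : 1 ≤ st a i ∧ st a i ≤ 2 := by
  unfold st
  split_ifs <;> omega

theorem st_inj {a b : Bt D} (h : st a = st b) : a = b := by
  funext i
  have := congrFun h i
  unfold st at this
  cases ha : a i <;> cases hb : b i <;> simp [ha, hb] at this ⊢

theorem up_mem {T : ℕ} {v : Vx D} (hv : v ∈ cone D T) (a : Bt D) : up v a ∈ cone D T := by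
  refine ⟨?_, fun i => ?_⟩
  · have := hv.1
    simp only [up]
    omega
  · have h1 := hv.2 i
    have h2 := st_mem a i
    simp only [up, Pi.add_apply]
    omega

theorem nrm_up_sub (v : Vx D) (a : Bt D) : nrm (up v a - v) ≤ 2 * D + 1 := by
  have h1 : up v a - v = (st a, 1) := by
    refine Prod.ext ?_ ?_
    · simp [up]
    · simp [up]
  rw [h1]
  simp only [nrm, abs_one]
  have h2 : ∑ i, |st a i| ≤ ∑ _i : Fin D, (2 : ℤ) := by
    refine Finset.sum_le_sum fun i _ => ?_
    have := st_mem a i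
    rw [abs_of_nonneg (by omega)]
    omega
  simp at h2
  linarith

/-- the graph -/
def GG (D T : ℕ) : SimpleGraph (Vx D) where
  Adj u v := nrm (u - v) = 1 ∨ Dg T u v ∨ Dg T v u
  symm := ⟨by
    rintro u v (h | h | h)
    · left
      rw [← nrm_neg, neg_sub]
      exact h
    · exact Or.inr (Or.inr h)
    · exact Or.inr (Or.inl h)⟩
  loopless := ⟨by
    have key : ∀ u : Vx D, ¬ Dg T u u := by
      rintro u ⟨s, x, a, hs, hx, h1, h2⟩
      have h3 := congrArg Prod.snd (h1.symm.trans h2)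
      rcases hs with rfl | rfl <;> simp [up] at h3
    rintro u (h | h | h)
    · rw [sub_self, nrm_zero] at h
      omega
    · exact key u h
    · exact key u h⟩

theorem adj_nrm {T : ℕ} {u v : Vx D} (h : (GG D T).Adj u v) : nrm (u - v) ≤ 2 * D + 1 := by
  have key : ∀ u v : Vx D, Dg T u v → nrm (v - u) ≤ 2 * D + 1 := by
    rintro u v ⟨s, x, a, hs, hx, rfl, rfl⟩
    rw [← smul_sub, nrm_smul s hs]
    exact nrm_up_sub x a
  rcases h with h | h | h
  · have : (0 : ℤ) ≤ D := Int.natCast_nonneg D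
    omega
  · rw [← nrm_neg, neg_sub]
    exact key _ _ h
  · exact key _ _ h

theorem nrm_walk {T : ℕ} {u v : Vx D} (W : (GG D T).Walk u v) :
    nrm (u - v) ≤ (2 * D + 1) * W.length := by
  induction W with
  | nil => simp [nrm_zero]
  | @cons u x v h W ih =>
    have h1 := adj_nrm h
    have h2 : u - v = (u - x) + (x - v) := by abel
    rw [h2]
    refine (nrm_add _ _).trans ?_
    rw [SimpleGraph.Walk.length_cons]
    push_cast
    linarith

theorem exists_walk {T : ℕ} (n : ℕ) : ∀ u v : Vx D, nrm (u - v) = n →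
    ∃ W : (GG D T).Walk u v, W.length = n := by
  induction n with
  | zero =>
    intro u v h
    have : u = v := sub_eq_zero.1 (nrm_eq_zero (by simpa using h))
    subst this
    exact ⟨SimpleGraph.Walk.nil, rfl⟩
  | succ n ih =>
    intro u v h
    obtain ⟨j, hj⟩ := exists_nb (n := n) (z := u - v) (by rw [h]; push_cast; ring)
    have h1 : u - nb j - v = u - v - nb j := by abel
    obtain ⟨W, hW⟩ := ih (u - nb j) v (by rw [h1]; exact hj)
    have hadj : (GG D T).Adj u (u - nb j) := by
      left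
      rw [sub_sub_cancel]
      exact nrm_nb j
    exact ⟨SimpleGraph.Walk.cons hadj W, by rw [SimpleGraph.Walk.length_cons, hW]⟩

theorem conn (D T : ℕ) : (GG D T).Connected := by
  rw [SimpleGraph.connected_iff]
  refine ⟨fun u v => ?_, ⟨0⟩⟩
  obtain ⟨W, _⟩ := exists_walk (T := T) (nrm (u - v)).toNat u v
    (by rw [Int.toNat_of_nonneg (nrm_nonneg _)])
  exact ⟨W⟩

theorem dist_le {T : ℕ} (u v : Vx D) : ((GG D T).dist u v : ℤ) ≤ nrm (u - v) := by
  obtain ⟨W, hW⟩ := exists_walk (T := T) (nrm (u - v)).toNat u v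
    (by rw [Int.toNat_of_nonneg (nrm_nonneg _)])
  have h1 := SimpleGraph.dist_le W
  have h2 : ((nrm (u - v)).toNat : ℤ) = nrm (u - v) := Int.toNat_of_nonneg (nrm_nonneg _)
  rw [← h2, ← hW]
  exact_mod_cast h1

theorem nrm_le_dist {T : ℕ} (u v : Vx D) : nrm (u - v) ≤ (2 * D + 1) * ((GG D T).dist u v : ℤ) := by
  obtain ⟨W, hW⟩ := (conn D T).exists_walk_length_eq_dist u v
  rw [← hW]
  exact nrm_walk W

theorem deg (D T : ℕ) (u : Vx D) :
    ((GG D T).neighborSet u).encard ≤ (((4 * D + 3) ^ (D + 1) : ℕ) : ℕ∞) := by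
  classical
  let B : Finset (Vx D) := (Fintype.piFinset fun i =>
    Finset.Icc (u.1 i - (2 * D + 1)) (u.1 i + (2 * D + 1))) ×ˢ
    Finset.Icc (u.2 - (2 * D + 1)) (u.2 + (2 * D + 1))
  have h1 : (GG D T).neighborSet u ⊆ (B : Set (Vx D)) := by
    intro v hv
    have h := adj_nrm hv
    have h0 : ∀ i, 0 ≤ |(u - v).1 i| := fun i => abs_nonneg _
    unfold nrm at h
    have hs : 0 ≤ ∑ i, |(u - v).1 i| := Finset.sum_nonneg fun i _ => h0 i
    have h2 : |u.2 - v.2| ≤ 2 * D + 1 := by
      have : |(u - v).2| = |u.2 - v.2| := rfl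
      linarith
    have h3 : ∀ i, |u.1 i - v.1 i| ≤ 2 * D + 1 := by
      intro i
      have h4 : |(u - v).1 i| ≤ ∑ i, |(u - v).1 i| :=
        Finset.single_le_sum (f := fun i => |(u - v).1 i|) (fun i _ => h0 i) (Finset.mem_univ i)
      have h5 : |(u - v).1 i| = |u.1 i - v.1 i| := rfl
      have := abs_nonneg (u - v).2
      linarith
    rw [abs_le] at h2
    simp only [Finset.coe_product, Set.mem_prod, Finset.mem_coe, Fintype.mem_piFinset,
      Finset.mem_Icc, B]
    refine ⟨fun i => ?_, ?_⟩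
    · have := abs_le.1 (h3 i)
      constructor <;> linarith
    · constructor <;> linarith
  refine (Set.encard_le_encard h1).trans ?_
  rw [Set.encard_coe_eq_coe_finsetCard]
  have h2 : B.card = (4 * D + 3) ^ (D + 1) := by
    simp only [B, Finset.card_product, Fintype.card_piFinset, Int.card_Icc]
    have e : ∀ x : ℤ, (x + (2 * (D : ℤ) + 1) + 1 - (x - (2 * D + 1))).toNat = 4 * D + 3 := by
      intro x
      omega
    simp_rw [e]
    rw [Finset.prod_const, Finset.card_univ, Fintype.card_fin, pow_succ]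
  rw [h2]

end Pool.Agent.H57R2.PU
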