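import Mathlib
import Pool.Agent.H57R2.PU.Graph

/-! First and second moment of the number of open diagonal paths. -/

set_option autoImplicit false

open MeasureTheory

namespace Pool.Agent.H57R2.PU

variable {D T : ℕ}

/-- diagonal edge -/
def ed (s : ℤ) (v : Vx D) (a : Bt D) : Sym2 (Vx D) := s(s • v, s • up v a)

/-- number of open diagonal paths of length `n` from `s • v` -/
noncomputable def X (s : ℤ) : ℕ → Vx D → ((GG D T).edgeSet → Bool) → ℝ
  | 0, _, _ => 1
  | n + 1, v, ω => ∑ a : Bt D, I (ed s v a) ω * X s n (up v a) ω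

theorem X_nonneg (s : ℤ) (n : ℕ) (v : Vx D) (ω : (GG D T).edgeSet → Bool) : 0 ≤ X s n v ω := by
  induction n generalizing v with
  | zero => exact zero_le_one
  | succ n ih => exact Finset.sum_nonneg fun a _ => mul_nonneg (I_nonneg _ _ _) (ih _)

theorem X_le (s : ℤ) (n : ℕ) (v : Vx D) (ω : (GG D T).edgeSet → Bool) :
    X s n v ω ≤ (2 ^ D) ^ n := by
  induction n generalizing v with
  | zero => simp [X]
  | succ n ih =>
    show ∑ a : Bt D, I (ed s v a) ω * X s n (up v a) ω ≤ _
    calc ∑ a : Bt D, I (ed s v a) ω * X s n (up v a) ω ≤ ∑ _a : Bt D, (1 : ℝ) * (2 ^ D) ^ n := by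
          refine Finset.sum_le_sum fun a _ => ?_
          exact mul_le_mul (I_le _ _ _) (ih _) (X_nonneg _ _ _ _) zero_le_one
      _ = (2 ^ D) ^ (n + 1) := by
          simp only [Finset.sum_const, Finset.card_univ, Fintype.card_pi, Fintype.card_bool,
            Finset.prod_const, Fintype.card_fin, nsmul_eq_mul]
          push_cast
          ring

theorem X_abs (s : ℤ) (n : ℕ) (v : Vx D) (ω : (GG D T).edgeSet → Bool) :
    |X s n v ω| ≤ (2 ^ D) ^ n := by
  rw [abs_of_nonneg (X_nonneg _ _ _ _)]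
  exact X_le _ _ _ _

theorem X_meas (s : ℤ) (n : ℕ) (v : Vx D) :
    Measurable (fun ω : (GG D T).edgeSet → Bool => X s n v ω) := by
  induction n generalizing v with
  | zero => exact measurable_const
  | succ n ih =>
    show Measurable fun ω => ∑ a : Bt D, I (ed s v a) ω * X s n (up v a) ω
    exact Finset.measurable_sum _ fun a _ => (I_meas _ _).mul (ih _)

theorem ed_mem {s : ℤ} (hs : s = 1 ∨ s = -1) {v : Vx D} (hv : v ∈ cone D T) (a : Bt D) :
    ed s v a ∈ (GG D T).edgeSet := by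
  unfold ed
  rw [SimpleGraph.mem_edgeSet]
  exact Or.inr (Or.inl ⟨s, v, a, hs, hv, rfl, rfl⟩)

theorem ed_inj {s : ℤ} (hs : s = 1 ∨ s = -1) {v v' : Vx D} (h : v.2 = v'.2) {a b : Bt D}
    (he : ed s v a = ed s v' b) : v = v' ∧ a = b := by
  have hinj : ∀ x y : Vx D, s • x = s • y → x = y := by
    intro x y hxy
    rcases hs with rfl | rfl
    · simpa using hxy
    · simpa using hxy
  unfold ed at he
  rw [Sym2.eq_iff] at he
  rcases he with ⟨h1, h2⟩ | ⟨h1, h2⟩
  · have h3 := hinj _ _ h1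
    have h4 := hinj _ _ h2
    subst h3
    refine ⟨rfl, ?_⟩
    have h5 : v.1 + st a = v.1 + st b := congrArg Prod.fst h4
    exact st_inj (add_left_cancel h5)
  · have h3 := congrArg Prod.snd (hinj _ _ h1)
    simp only [up] at h3
    omega

/-- all edges of `F` have an endpoint of height less than `h` -/
def Bel (F : Finset (Sym2 (Vx D))) (h : ℤ) : Prop := ∀ e ∈ F, ∃ u ∈ e, |u.2| < h

theorem abs_smul_snd {s : ℤ} (hs : s = 1 ∨ s = -1) (v : Vx D) : |(s • v).2| = |v.2| := by
  rcases hs with rfl | rfl <;> simp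

theorem ed_high {s : ℤ} (hs : s = 1 ∨ s = -1) {v : Vx D} (hv : 0 ≤ v.2) {a : Bt D}
    {u : Vx D} (hu : u ∈ ed s v a) : v.2 ≤ |u.2| := by
  unfold ed at hu
  rw [Sym2.mem_iff] at hu
  rcases hu with rfl | rfl
  · rw [abs_smul_snd hs]
    exact le_abs_self _
  · rw [abs_smul_snd hs]
    have : (up v a).2 = v.2 + 1 := rfl
    rw [this, abs_of_nonneg (by omega)]
    omega

theorem ed_notMem {s : ℤ} (hs : s = 1 ∨ s = -1) {v : Vx D} (hv : 0 ≤ v.2) {a : Bt D}
    {F : Finset (Sym2 (Vx D))} (hF : Bel F v.2) : ed s v a ∉ F := by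
  intro h
  obtain ⟨u, hu, hu2⟩ := hF _ h
  have := ed_high hs hv hu
  omega

theorem bel_insert {s : ℤ} (hs : s = 1 ∨ s = -1) {v : Vx D} (hv : 0 ≤ v.2) {a : Bt D}
    {F : Finset (Sym2 (Vx D))} [DecidableEq (Sym2 (Vx D))] (hF : Bel F (v.2 + 1)) :
    Bel (insert (ed s v a) F) (v.2 + 1) := by
  intro e he
  rw [Finset.mem_insert] at he
  rcases he with rfl | he
  · refine ⟨s • v, Sym2.mem_mk_left _ _, ?_⟩
    rw [abs_smul_snd hs, abs_of_nonneg hv]
    omega
  · exact hF e he

theorem bel_mono {F : Finset (Sym2 (Vx D))} {h h' : ℤ} (hh : h ≤ h') (hF : Bel F h) : Bel F h' := by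
  intro e he
  obtain ⟨u, hu, hu2⟩ := hF e he
  exact ⟨u, hu, by omega⟩

theorem integ (p : NNReal) (hp : p ≤ 1) (f : ((GG D T).edgeSet → Bool) → ℝ) (hf : Measurable f)
    (C : ℝ) (hC : ∀ ω, |f ω| ≤ C) : Integrable f (mu (GG D T) p hp) :=
  Integrable.of_bound hf.aestronglyMeasurable C (Filter.Eventually.of_forall hC)

theorem prod_I_meas (F : Finset (Sym2 (Vx D))) :
    Measurable (fun ω : (GG D T).edgeSet → Bool => ∏ e ∈ F, I e ω) :=
  Finset.measurable_prod _ fun e _ => I_meas _ e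

theorem prod_I_abs (F : Finset (Sym2 (Vx D))) (ω : (GG D T).edgeSet → Bool) :
    |∏ e ∈ F, I e ω| ≤ 1 := by
  rw [abs_of_nonneg (Finset.prod_nonneg fun e _ => I_nonneg _ e ω)]
  exact Finset.prod_le_one (fun e _ => I_nonneg _ e ω) (fun e _ => I_le _ e ω)

theorem mom1 (p : NNReal) (hp : p ≤ 1) {s : ℤ} (hs : s = 1 ∨ s = -1) (n : ℕ) :
    ∀ (F : Finset (Sym2 (Vx D))) (v : Vx D), v ∈ cone D T → (∀ e ∈ F, e ∈ (GG D T).edgeSet) →
    Bel F v.2 → ∫ ω, (∏ e ∈ F, I e ω) * X s n v ω ∂(mu (GG D T) p hp) =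
      (p : ℝ) ^ F.card * (2 ^ D * p) ^ n := by
  classical
  induction n with
  | zero =>
    intro F v hv hF hB
    simp only [X, mul_one, pow_zero]
    exact int_prod_I _ p hp F hF
  | succ n ih =>
    intro F v hv hF hB
    have hv0 : 0 ≤ v.2 := le_trans (Int.natCast_nonneg T) hv.1
    have h1 : ∀ ω : (GG D T).edgeSet → Bool, (∏ e ∈ F, I e ω) * X s (n + 1) v ω =
        ∑ a : Bt D, (∏ e ∈ insert (ed s v a) F, I e ω) * X s n (up v a) ω := by
      intro ω
      show (∏ e ∈ F, I e ω) * ∑ a : Bt D, I (ed s v a) ω * X s n (up v a) ω = _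
      rw [Finset.mul_sum]
      refine Finset.sum_congr rfl fun a _ => ?_
      rw [Finset.prod_insert (ed_notMem hs hv0 hB)]
      ring
    simp_rw [h1]
    rw [integral_finsetSum]
    · have h2 : ∀ a : Bt D, ∫ ω, (∏ e ∈ insert (ed s v a) F, I e ω) * X s n (up v a) ω
          ∂(mu (GG D T) p hp) = (p : ℝ) ^ (F.card + 1) * (2 ^ D * p) ^ n := by
        intro a
        rw [ih (insert (ed s v a) F) (up v a) (up_mem hv a), Finset.card_insert_of_notMem
          (ed_notMem hs hv0 hB)]
        · intro e he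
          rw [Finset.mem_insert] at he
          rcases he with rfl | he
          · exact ed_mem hs hv a
          · exact hF e he
        · exact bel_insert hs hv0 (bel_mono (by omega) hB)
      rw [Finset.sum_congr rfl fun a _ => h2 a]
      simp only [Finset.sum_const, Finset.card_univ, Fintype.card_pi, Fintype.card_bool,
        Finset.prod_const, Fintype.card_fin, nsmul_eq_mul]
      push_cast
      ring
    · intro a _
      refine integ p hp _ ((prod_I_meas _).mul (X_meas _ _ _)) (1 * (2 ^ D) ^ n) fun ω => ?_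
      rw [abs_mul]
      exact mul_le_mul (prod_I_abs _ _) (X_abs _ _ _ _) (abs_nonneg _) zero_le_one

theorem mom2 (p : NNReal) (hp : p ≤ 1) {s : ℤ} (hs : s = 1 ∨ s = -1) (n : ℕ) :
    ∀ (F : Finset (Sym2 (Vx D))) (v v' : Vx D), v ∈ cone D T → v' ∈ cone D T → v.2 = v'.2 →
    (∀ e ∈ F, e ∈ (GG D T).edgeSet) → Bel F v.2 →
    ∫ ω, (∏ e ∈ F, I e ω) * (X s n v ω * X s n v' ω) ∂(mu (GG D T) p hp) =
      (p : ℝ) ^ F.card * R (p : ℝ) n (v.1 - v'.1) := by
  classical
  induction n with
  | zero =>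
    intro F v v' hv hv' hvv hF hB
    simp only [X, mul_one, R]
    exact int_prod_I _ p hp F hF
  | succ n ih =>
    intro F v v' hv hv' hvv hF hB
    have hv0 : 0 ≤ v.2 := le_trans (Int.natCast_nonneg T) hv.1
    have hv0' : 0 ≤ v'.2 := le_trans (Int.natCast_nonneg T) hv'.1
    have hB' : Bel F v'.2 := hvv ▸ hB
    have hn : ∀ a, ed s v a ∉ F := fun a => ed_notMem hs hv0 hB
    have hn' : ∀ b, ed s v' b ∉ F := fun b => ed_notMem hs hv0' hB'
    have h0 : ∀ (ω : (GG D T).edgeSet → Bool) (a b : Bt D),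
        ∏ e ∈ insert (ed s v a) (insert (ed s v' b) F), I e ω =
        I (ed s v a) ω * I (ed s v' b) ω * ∏ e ∈ F, I e ω := by
      intro ω a b
      by_cases he : ed s v a = ed s v' b
      · rw [← he, Finset.insert_idem, Finset.prod_insert (hn a), I_mul]
      · rw [Finset.prod_insert, Finset.prod_insert (hn' b)]
        · ring
        · rw [Finset.mem_insert, not_or]
          exact ⟨he, hn a⟩
    have h1 : ∀ ω : (GG D T).edgeSet → Bool,
        (∏ e ∈ F, I e ω) * (X s (n + 1) v ω * X s (n + 1) v' ω) =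
        ∑ a : Bt D, ∑ b : Bt D, (∏ e ∈ insert (ed s v a) (insert (ed s v' b) F), I e ω) *
          (X s n (up v a) ω * X s n (up v' b) ω) := by
      intro ω
      show (∏ e ∈ F, I e ω) * ((∑ a : Bt D, I (ed s v a) ω * X s n (up v a) ω) *
        (∑ b : Bt D, I (ed s v' b) ω * X s n (up v' b) ω)) = _
      rw [Finset.sum_mul_sum, Finset.mul_sum]
      refine Finset.sum_congr rfl fun a _ => ?_
      rw [Finset.mul_sum]
      refine Finset.sum_congr rfl fun b _ => ?_
      rw [h0]
      ring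
    have hint : ∀ a b : Bt D, Integrable (fun ω : (GG D T).edgeSet → Bool =>
        (∏ e ∈ insert (ed s v a) (insert (ed s v' b) F), I e ω) *
          (X s n (up v a) ω * X s n (up v' b) ω)) (mu (GG D T) p hp) := by
      intro a b
      refine integ p hp _ ((prod_I_meas _).mul ((X_meas _ _ _).mul (X_meas _ _ _)))
        (1 * ((2 ^ D) ^ n * (2 ^ D) ^ n)) fun ω => ?_
      rw [abs_mul, abs_mul]
      exact mul_le_mul (prod_I_abs _ _) (mul_le_mul (X_abs _ _ _ _) (X_abs _ _ _ _)
        (abs_nonneg _) (by positivity)) (by positivity) zero_le_one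
    have h2 : ∀ a b : Bt D, ∫ ω, (∏ e ∈ insert (ed s v a) (insert (ed s v' b) F), I e ω) *
          (X s n (up v a) ω * X s n (up v' b) ω) ∂(mu (GG D T) p hp) =
        (p : ℝ) ^ F.card * ((if v.1 - v'.1 = 0 ∧ a = b then (p : ℝ) else (p : ℝ) ^ 2) *
          R (p : ℝ) n (v.1 - v'.1 + st a - st b)) := by
      intro a b
      rw [ih (insert (ed s v a) (insert (ed s v' b) F)) (up v a) (up v' b) (up_mem hv a)
        (up_mem hv' b)]
      · have e1 : (up v a).1 - (up v' b).1 = v.1 - v'.1 + st a - st b := by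
          simp only [up]
          abel
        rw [e1, ← mul_assoc]
        congr 1
        by_cases hc : v.1 - v'.1 = 0 ∧ a = b
        · have hvv2 : v = v' := Prod.ext (sub_eq_zero.1 hc.1) hvv
          have he : ed s v a = ed s v' b := by rw [hvv2, hc.2]
          rw [if_pos hc, ← he, Finset.insert_idem, Finset.card_insert_of_notMem (hn a), pow_succ]
        · have he : ed s v a ≠ ed s v' b := by
            intro he
            obtain ⟨h3, h4⟩ := ed_inj hs hvv he
            exact hc ⟨by rw [h3, sub_self], h4⟩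
          rw [if_neg hc, Finset.card_insert_of_notMem, Finset.card_insert_of_notMem (hn' b)]
          · ring
          · rw [Finset.mem_insert, not_or]
            exact ⟨he, hn a⟩
      · simp only [up]
        omega
      · intro e he
        rw [Finset.mem_insert, Finset.mem_insert] at he
        rcases he with rfl | rfl | he
        · exact ed_mem hs hv a
        · exact ed_mem hs hv' b
        · exact hF e he
      · have hb1 : Bel F (v'.2 + 1) := bel_mono (by omega) hB'
        have hb2 : Bel (insert (ed s v' b) F) (v'.2 + 1) := bel_insert hs hv0' hb1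
        rw [← hvv] at hb2
        exact bel_insert hs hv0 hb2
    simp_rw [h1]
    rw [integral_finsetSum _ (fun a _ => integrable_finsetSum _ fun b _ => hint a b)]
    show _ = (p : ℝ) ^ F.card * ∑ a : Bt D, ∑ b : Bt D,
      (if v.1 - v'.1 = 0 ∧ a = b then (p : ℝ) else (p : ℝ) ^ 2) *
        R (p : ℝ) n (v.1 - v'.1 + st a - st b)
    rw [Finset.mul_sum]
    refine Finset.sum_congr rfl fun a _ => ?_
    rw [integral_finsetSum _ (fun b _ => hint a b), Finset.mul_sum]
    exact Finset.sum_congr rfl fun b _ => h2 a b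

/-- the apex of the cone -/
def apex (D T : ℕ) : Vx D := (0, (T : ℤ))

theorem apex_mem : apex D T ∈ cone D T := by
  refine ⟨le_refl _, fun i => ?_⟩
  simp [apex]

theorem prob_X (hD : 3 ≤ D) (p : NNReal) (hp : p ≤ 1) (hp0 : 0 < p) (κ : ℝ)
    (hκ : 3 / 2 * ((1 / (p : ℝ) - 1) / 2 ^ D) ≤ κ) (hκ1 : κ < 1) {s : ℤ} (hs : s = 1 ∨ s = -1)
    (n : ℕ) : 1 - κ ≤ (mu (GG D T) p hp).real {ω | X s n (apex D T) ω ≠ 0} := by
  have hp0' : (0 : ℝ) < p := by exact_mod_cast hp0
  have hp' : (p : ℝ) ≤ 1 := by exact_mod_cast hp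
  have h1 := mom1 (T := T) p hp hs n ∅ (apex D T) apex_mem (by simp) (by intro e he; simp at he)
  have h2 := mom2 (T := T) p hp hs n ∅ (apex D T) (apex D T) apex_mem apex_mem rfl (by simp)
    (by intro e he; simp at he)
  simp only [Finset.prod_empty, Finset.card_empty, pow_zero, one_mul, sub_self] at h1 h2
  have h3 := R_zero_le hD (p : ℝ) κ hp0' hp' hκ hκ1 n
  refine second_moment (mu (GG D T) p hp) (fun ω => X s n (apex D T) ω) (X_meas _ _ _)
    ((2 ^ D) ^ n) (fun ω => X_abs _ _ _ _) _ _ κ h1 h2 (by positivity) hκ1 ?_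
  rw [← pow_mul, mul_comm n 2]
  exact h3

theorem X_mono (s : ℤ) (n : ℕ) : ∀ (v : Vx D) (ω : (GG D T).edgeSet → Bool),
    X s (n + 1) v ω ≠ 0 → X s n v ω ≠ 0 := by
  induction n with
  | zero =>
    intro v ω _
    simp [X]
  | succ n ih =>
    intro v ω h
    obtain ⟨a, _, ha⟩ := Finset.exists_ne_zero_of_sum_ne_zero h
    have h1 : X s (n + 1) (up v a) ω ≠ 0 := right_ne_zero_of_mul ha
    have h2 : I (ed s v a) ω ≠ 0 := left_ne_zero_of_mul ha
    have h3 := ih (up v a) ω h1
    have h4 : 0 < I (ed s v a) ω * X s n (up v a) ω :=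
      mul_pos (lt_of_le_of_ne (I_nonneg _ _ _) h2.symm) (lt_of_le_of_ne (X_nonneg _ _ _ _) h3.symm)
    have h5 : I (ed s v a) ω * X s n (up v a) ω ≤
        ∑ a : Bt D, I (ed s v a) ω * X s n (up v a) ω :=
      Finset.single_le_sum (f := fun a => I (ed s v a) ω * X s n (up v a) ω)
        (fun a _ => mul_nonneg (I_nonneg _ _ _) (X_nonneg _ _ _ _)) (Finset.mem_univ a)
    exact (lt_of_lt_of_le h4 h5).ne'

/-- with probability at least `1 - κ` there are open paths of every length -/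
theorem prob_all (hD : 3 ≤ D) (p : NNReal) (hp : p ≤ 1) (hp0 : 0 < p) (κ : ℝ)
    (hκ : 3 / 2 * ((1 / (p : ℝ) - 1) / 2 ^ D) ≤ κ) (hκ1 : κ < 1) {s : ℤ}
    (hs : s = 1 ∨ s = -1) :
    mu (GG D T) p hp {ω | ∃ n, X s n (apex D T) ω = 0} ≤ ENNReal.ofReal κ := by
  have h1 : {ω : (GG D T).edgeSet → Bool | ∃ n, X s n (apex D T) ω = 0} =
      ⋃ n, {ω | X s n (apex D T) ω = 0} := by
    ext ω
    simp
  have hmono : Monotone fun n => {ω : (GG D T).edgeSet → Bool | X s n (apex D T) ω = 0} := by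
    apply monotone_nat_of_le_succ
    intro n ω hω
    by_contra hc
    exact X_mono s n _ _ hc hω
  rw [h1, hmono.measure_iUnion]
  refine iSup_le fun n => ?_
  have h2 := prob_X (T := T) hD p hp hp0 κ hκ hκ1 hs n
  have hm : MeasurableSet {ω : (GG D T).edgeSet → Bool | X s n (apex D T) ω ≠ 0} :=
    (X_meas s n _) (measurableSet_singleton 0).compl
  have h3 : {ω : (GG D T).edgeSet → Bool | X s n (apex D T) ω = 0} =
      {ω | X s n (apex D T) ω ≠ 0}ᶜ := by
    ext ω
    simp
  rw [h3]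
  have h4 := measureReal_compl (μ := mu (GG D T) p hp) hm
  rw [probReal_univ] at h4
  rw [← ofReal_measureReal, h4]
  apply ENNReal.ofReal_le_ofReal
  linarith

end Pool.Agent.H57R2.PU
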