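import Mathlib
import Pool.Agent.H57R2.PU.Mom

/-! Union bound: no open nearest neighbour path joins the two cones, with high probability. -/

set_option autoImplicit false

open MeasureTheory

namespace Pool.Agent.H57R2.PU

variable {D T : ℕ}

/-- open nearest neighbour edges -/
def NN (ω : (GG D T).edgeSet → Bool) : SimpleGraph (Vx D) where
  Adj u v := nrm (u - v) = 1 ∧ op ω s(u, v)
  symm := ⟨by
    rintro u v ⟨h1, h2⟩
    refine ⟨by rw [← nrm_neg, neg_sub]; exact h1, ?_⟩
    rw [Sym2.eq_swap]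
    exact h2⟩
  loopless := ⟨by
    rintro u ⟨h, _⟩
    rw [sub_self, nrm_zero] at h
    omega⟩

open Classical in
/-- edge lists of nearest neighbour walks of length `n` from `x` -/
noncomputable def EL (D : ℕ) : ℕ → Vx D → Finset (List (Sym2 (Vx D)))
  | 0, _ => {[]}
  | n + 1, x => (Finset.univ : Finset (Option (Fin D) × Bool)).biUnion fun j =>
      (EL D n (x - nb j)).image (List.cons s(x, x - nb j))

theorem EL_card (n : ℕ) (x : Vx D) : (EL D n x).card ≤ (2 * (D + 1)) ^ n := by
  classical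
  induction n generalizing x with
  | zero => simp [EL]
  | succ n ih =>
    unfold EL
    refine (Finset.card_biUnion_le).trans ?_
    calc ∑ j : Option (Fin D) × Bool,
          ((EL D n (x - nb j)).image (List.cons s(x, x - nb j))).card
        ≤ ∑ _j : Option (Fin D) × Bool, (2 * (D + 1)) ^ n :=
          Finset.sum_le_sum fun j _ => Finset.card_image_le.trans (ih _)
      _ = (2 * (D + 1)) ^ (n + 1) := by
          simp only [Finset.sum_const, Finset.card_univ, Fintype.card_prod, Fintype.card_option,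
            Fintype.card_fin, Fintype.card_bool, smul_eq_mul]
          ring

theorem mem_EL {ω : (GG D T).edgeSet → Bool} {x y : Vx D} (W : (NN ω).Walk x y) :
    W.edges ∈ EL D W.length x := by
  classical
  induction W with
  | nil => simp [EL]
  | @cons u v y h W ih =>
    obtain ⟨j, hj⟩ := eq_nb h.1
    have hv : v = u - nb j := by rw [← hj, sub_sub_cancel]
    rw [SimpleGraph.Walk.length_cons, SimpleGraph.Walk.edges_cons]
    unfold EL
    rw [Finset.mem_biUnion]
    refine ⟨j, Finset.mem_univ _, ?_⟩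
    rw [Finset.mem_image]
    rw [← hv]
    exact ⟨_, ih, rfl⟩

theorem nrm_NN {ω : (GG D T).edgeSet → Bool} {x y : Vx D} (W : (NN ω).Walk x y) :
    nrm (x - y) ≤ W.length := by
  induction W with
  | nil => simp [nrm_zero]
  | @cons u v y h W ih =>
    have h1 := h.1
    have h2 : u - y = (u - v) + (v - y) := by abel
    rw [h2]
    refine (nrm_add _ _).trans ?_
    rw [SimpleGraph.Walk.length_cons]
    push_cast
    linarith

theorem open_NN {ω : (GG D T).edgeSet → Bool} {x y : Vx D} (W : (NN ω).Walk x y) :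
    ∀ e ∈ W.edges, op ω e := by
  intro e he
  have h := W.edges_subset_edgeSet he
  induction e using Sym2.ind with
  | _ a b =>
    rw [SimpleGraph.mem_edgeSet] at h
    exact h.2

/-- long connections from a vertex are unlikely -/
theorem prob_long (p : NNReal) (hp : p ≤ 1) (n : ℕ) (x : Vx D) :
    mu (GG D T) p hp {ω | ∃ y, (NN ω).Reachable x y ∧ (n : ℤ) ≤ nrm (x - y)} ≤
      ENNReal.ofReal ((2 * (D + 1) * p) ^ n) := by
  classical
  have h1 : {ω : (GG D T).edgeSet → Bool | ∃ y, (NN ω).Reachable x y ∧ (n : ℤ) ≤ nrm (x - y)} ⊆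
      ⋃ l ∈ (EL D n x).filter (fun l => l.Nodup ∧ l.length = n), {ω | ∀ e ∈ l.toFinset, op ω e} := by
    rintro ω ⟨y, hr, hn⟩
    obtain ⟨W, hW⟩ := hr.exists_isPath
    have hlen : n ≤ W.length := by
      have := nrm_NN W
      omega
    have hP : (W.take n).IsPath := hW.take n
    have hl : (W.take n).length = n := by
      rw [SimpleGraph.Walk.take_length]
      omega
    rw [Set.mem_iUnion₂]
    refine ⟨(W.take n).edges, ?_, ?_⟩
    · rw [Finset.mem_filter]
      refine ⟨?_, hP.isTrail.edges_nodup, ?_⟩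
      · have := mem_EL (W.take n)
        rwa [hl] at this
      · rw [SimpleGraph.Walk.length_edges, hl]
    · intro e he
      rw [List.mem_toFinset] at he
      exact open_NN _ e he
  refine (measure_mono h1).trans ((measure_biUnion_finset_le _ _).trans ?_)
  have h2 : ∀ l ∈ (EL D n x).filter (fun l => l.Nodup ∧ l.length = n),
      mu (GG D T) p hp {ω | ∀ e ∈ l.toFinset, op ω e} ≤ ENNReal.ofReal ((p : ℝ) ^ n) := by
    intro l hl
    rw [Finset.mem_filter] at hl
    by_cases hF : ∀ e ∈ l.toFinset, e ∈ (GG D T).edgeSet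
    · rw [← ofReal_measureReal, mu_op _ p hp _ hF, List.toFinset_card_of_nodup hl.2.1, hl.2.2]
    · push Not at hF
      obtain ⟨e, he, he2⟩ := hF
      have : {ω : (GG D T).edgeSet → Bool | ∀ e ∈ l.toFinset, op ω e} = ∅ := by
        ext ω
        simp only [Set.mem_ofPred_eq, Set.mem_empty_iff_false, iff_false]
        intro h
        exact he2 (h e he).1
      rw [this, measure_empty]
      exact zero_le
  refine (Finset.sum_le_sum h2).trans ?_
  rw [Finset.sum_const, nsmul_eq_mul]
  have h3 : ((((EL D n x).filter (fun l => l.Nodup ∧ l.length = n)).card : ℕ) : ENNReal) ≤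
      ENNReal.ofReal ((2 * (D + 1)) ^ n) := by
    have h4 : (((2 * (D + 1)) ^ n : ℕ) : ENNReal) = ENNReal.ofReal ((2 * ((D : ℝ) + 1)) ^ n) := by
      rw [← ENNReal.ofReal_natCast]
      congr 1
      push_cast
      ring
    rw [← h4]
    exact_mod_cast (Finset.card_filter_le _ _).trans (EL_card n x)
  calc _ ≤ ENNReal.ofReal ((2 * ((D : ℝ) + 1)) ^ n) * ENNReal.ofReal ((p : ℝ) ^ n) := by
        gcongr
    _ = _ := by
        rw [← ENNReal.ofReal_mul (by positivity), ← mul_pow]

/-- the two cones are joined by open nearest neighbour edges -/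
def Bad (D T : ℕ) : Set ((GG D T).edgeSet → Bool) :=
  {ω | ∃ u y, u ∈ cone D T ∧ -y ∈ cone D T ∧ (NN ω).Reachable u y}

/-- the points of the cone at level `k` -/
noncomputable def Lev (D T k : ℕ) : Finset (Vx D) :=
  (Fintype.piFinset fun _ : Fin D => Finset.Icc (k : ℤ) (2 * k)) ×ˢ {((T : ℤ) + k)}

theorem Lev_card (k : ℕ) : (Lev D T k).card = (k + 1) ^ D := by
  unfold Lev
  rw [Finset.card_product, Fintype.card_piFinset, Finset.card_singleton, mul_one]
  simp only [Int.card_Icc, Finset.prod_const, Finset.card_univ, Fintype.card_fin]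
  congr 1
  omega

theorem prob_bad (p : NNReal) (hp : p ≤ 1) : mu (GG D T) p hp (Bad D T) ≤
    ∑' k : ℕ, ENNReal.ofReal (((k : ℝ) + 1) ^ D * (2 * (D + 1) * p) ^ (T + k)) := by
  have h1 : Bad D T ⊆ ⋃ k : ℕ, ⋃ u ∈ Lev D T k,
      {ω | ∃ y, (NN ω).Reachable u y ∧ ((T + k : ℕ) : ℤ) ≤ nrm (u - y)} := by
    rintro ω ⟨u, y, hu, hy, hr⟩
    rw [Set.mem_iUnion]
    have hu1 := hu.1
    have hy1 := hy.1
    refine ⟨(u.2 - T).toNat, ?_⟩
    have hk : (((u.2 - T).toNat : ℕ) : ℤ) = u.2 - T := Int.toNat_of_nonneg (by omega)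
    rw [Set.mem_iUnion₂]
    refine ⟨u, ?_, y, hr, ?_⟩
    · unfold Lev
      rw [Finset.mem_product, Fintype.mem_piFinset, Finset.mem_singleton]
      refine ⟨fun i => ?_, ?_⟩
      · rw [Finset.mem_Icc, hk]
        exact hu.2 i
      · rw [hk]
        ring
    · push_cast
      rw [hk]
      have h2 : u.2 - y.2 ≤ |(u - y).2| := le_abs_self _
      have h3 : 0 ≤ ∑ i, |(u - y).1 i| := Finset.sum_nonneg fun _ _ => abs_nonneg _
      have h4 : (-y).2 = -y.2 := rfl
      unfold nrm
      rw [h4] at hy1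
      omega
  refine (measure_mono h1).trans ((measure_iUnion_le _).trans ?_)
  refine ENNReal.tsum_le_tsum fun k => ?_
  refine (measure_biUnion_finset_le _ _).trans ?_
  refine (Finset.sum_le_sum fun u _ => prob_long p hp (T + k) u).trans ?_
  rw [Finset.sum_const, Lev_card, nsmul_eq_mul, ENNReal.ofReal_mul (by positivity)]
  gcongr
  rw [← ENNReal.ofReal_natCast]
  apply ENNReal.ofReal_le_ofReal
  push_cast
  exact le_refl _

/-- the distance of the cones can be chosen such that the bad event has small probability -/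
theorem exists_T (D : ℕ) (p : NNReal) (hp : p ≤ 1) (hp0 : 0 < p) (hr : 2 * ((D : ℝ) + 1) * p < 1)
    (ε : ℝ) (hε : 0 < ε) : ∃ T : ℕ, mu (GG D T) p hp (Bad D T) ≤ ENNReal.ofReal ε := by
  have hp0' : (0 : ℝ) < p := by exact_mod_cast hp0
  obtain ⟨r, hrr⟩ : ∃ r : ℝ, r = 2 * ((D : ℝ) + 1) * p := ⟨_, rfl⟩
  have hr0 : 0 < r := by rw [hrr]; positivity
  have hr1 : r < 1 := by rw [hrr]; exact hr
  have hs : Summable fun k : ℕ => ((k : ℝ) + 1) ^ D * r ^ k := by
    have h1 : Summable fun k : ℕ => (k : ℝ) ^ D * r ^ k :=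
      summable_pow_mul_geometric_of_norm_lt_one D (by rw [Real.norm_eq_abs, abs_of_pos hr0]; exact hr1)
    have h2 := (summable_nat_add_iff 1).2 h1
    have h3 := h2.mul_left (1 / r)
    refine h3.congr fun k => ?_
    push_cast
    rw [pow_succ]
    field_simp
  obtain ⟨S, hS⟩ : ∃ S : ℝ, S = ∑' k : ℕ, ((k : ℝ) + 1) ^ D * r ^ k := ⟨_, rfl⟩
  have hS0 : 0 ≤ S := by
    rw [hS]
    exact tsum_nonneg fun k => by positivity
  obtain ⟨T, hT⟩ := exists_pow_lt_of_lt_one (show (0 : ℝ) < ε / (S + 1) by positivity) hr1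
  refine ⟨T, (prob_bad p hp).trans ?_⟩
  rw [← hrr]
  have h1 : ∀ k : ℕ, ENNReal.ofReal (((k : ℝ) + 1) ^ D * r ^ (T + k)) =
      ENNReal.ofReal (r ^ T) * ENNReal.ofReal (((k : ℝ) + 1) ^ D * r ^ k) := by
    intro k
    rw [← ENNReal.ofReal_mul (by positivity)]
    congr 1
    rw [pow_add]
    ring
  simp_rw [h1]
  rw [ENNReal.tsum_mul_left, ← ENNReal.ofReal_tsum_of_nonneg (fun k => by positivity) hs, ← hS,
    ← ENNReal.ofReal_mul (by positivity)]
  apply ENNReal.ofReal_le_ofReal
  have h2 : r ^ T * S ≤ ε / (S + 1) * (S + 1) := by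
    apply mul_le_mul hT.le (by linarith) hS0 (by positivity)
  have h3 : ε / (S + 1) * (S + 1) = ε := by field_simp
  linarith

end Pool.Agent.H57R2.PU
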