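import Mathlib
import Pool.Agent.H57R2.PU.Bad

/-! Two infinite clusters with positive probability. -/

set_option autoImplicit false

open MeasureTheory

namespace Pool.Agent.H57R2.PU

variable {D T : ℕ}

/-- the graph of open edges -/
abbrev HH (ω : (GG D T).edgeSet → Bool) : SimpleGraph (Vx D) :=
  SimpleGraph.fromEdgeSet {e : Sym2 (Vx D) | ∃ h : e ∈ (GG D T).edgeSet, ω ⟨e, h⟩ = true}

theorem HH_adj {ω : (GG D T).edgeSet → Bool} {u v : Vx D} (h : op ω s(u, v)) : (HH ω).Adj u v := by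
  rw [SimpleGraph.fromEdgeSet_adj]
  refine ⟨h, ?_⟩
  have h1 : (GG D T).Adj u v := h.1
  exact h1.ne

/-- open diagonal paths give vertices of large height in the cluster -/
theorem reach_X (s : ℤ) (n : ℕ) : ∀ (v : Vx D)
    (ω : (GG D T).edgeSet → Bool), X s n v ω ≠ 0 →
    ∃ y : Vx D, y.2 = v.2 + n ∧ (HH ω).Reachable (s • v) (s • y) := by
  induction n with
  | zero =>
    intro v ω _
    exact ⟨v, by simp, SimpleGraph.Reachable.refl _⟩
  | succ n ih =>
    intro v ω h
    obtain ⟨a, _, ha⟩ := Finset.exists_ne_zero_of_sum_ne_zero h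
    obtain ⟨y, hy, hr⟩ := ih (up v a) ω (right_ne_zero_of_mul ha)
    have h2 : I (ed s v a) ω ≠ 0 := left_ne_zero_of_mul ha
    have h3 : op ω (ed s v a) := by
      by_contra hc
      exact h2 (if_neg hc)
    refine ⟨y, ?_, ?_⟩
    · rw [hy]
      simp only [up]
      push_cast
      ring
    · exact (SimpleGraph.Adj.reachable (HH_adj h3)).trans hr

/-- the cluster of the apex is infinite -/
theorem inf_cluster {s : ℤ} (hs : s = 1 ∨ s = -1) (ω : (GG D T).edgeSet → Bool)
    (h : ∀ n, X s n (apex D T) ω ≠ 0) :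
    ((HH ω).connectedComponentMk (s • apex D T)).supp.Infinite := by
  choose y hy hr using fun n => reach_X s n (apex D T) ω (h n)
  have hinj : Function.Injective fun n => s • y n := by
    intro m n hmn
    have h1 : |(s • y m).2| = |(s • y n).2| := by
      have : s • y m = s • y n := hmn
      rw [this]
    rw [abs_smul_snd hs, abs_smul_snd hs, hy, hy] at h1
    have h2 : (apex D T).2 = (T : ℤ) := rfl
    rw [h2, abs_of_nonneg (by positivity), abs_of_nonneg (by positivity)] at h1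
    omega
  refine Set.infinite_of_injective_forall_mem hinj fun n => ?_
  rw [SimpleGraph.ConnectedComponent.mem_supp_iff, SimpleGraph.ConnectedComponent.eq]
  exact (hr n).symm

/-- a connection between the cones contains a nearest neighbour connection -/
theorem bad_of_walk {ω : (GG D T).edgeSet → Bool} {x y : Vx D} (W : (HH ω).Walk x y) :
    -y ∈ cone D T → ∀ u, u ∈ cone D T → (NN ω).Reachable u x → ω ∈ Bad D T := by
  induction W with
  | nil =>
    intro hy u hu hr
    exact ⟨u, _, hu, hy, hr⟩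
  | @cons x z y h W ih =>
    intro hy u hu hr
    rw [SimpleGraph.fromEdgeSet_adj] at h
    have hop : op ω s(x, z) := h.1
    have hG : (GG D T).Adj x z := hop.1
    have key : ∀ x' z' : Vx D, Dg T x' z' → (x' ∈ cone D T ∧ z' ∈ cone D T) ∨
        (-x' ∈ cone D T ∧ -z' ∈ cone D T) := by
      rintro x' z' ⟨s, v, a, hs, hv, rfl, rfl⟩
      rcases hs with rfl | rfl
      · left
        rw [one_zsmul, one_zsmul]
        exact ⟨hv, up_mem hv a⟩
      · right
        rw [neg_one_zsmul, neg_one_zsmul, neg_neg, neg_neg]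
        exact ⟨hv, up_mem hv a⟩
    have key2 : ((x ∈ cone D T ∧ z ∈ cone D T) ∨ (-x ∈ cone D T ∧ -z ∈ cone D T)) →
        ω ∈ Bad D T := by
      rintro (h1 | h1)
      · exact ih hy z h1.2 (SimpleGraph.Reachable.refl _)
      · exact ⟨u, x, hu, h1.1, hr⟩
    rcases hG with h1 | h1 | h1
    · refine ih hy u hu (hr.trans ?_)
      have : (NN ω).Adj x z := ⟨h1, hop⟩
      exact this.reachable
    · exact key2 (key _ _ h1)
    · rcases key _ _ h1 with h2 | h2
      · exact key2 (Or.inl h2.symm)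
      · exact key2 (Or.inr h2.symm)

/-- the event that there are two distinct infinite clusters -/
def Two {V : Type} (G : SimpleGraph V) : Set (G.edgeSet → Bool) :=
  {ω | ∃ c₁ c₂ : (SimpleGraph.fromEdgeSet
    {e : Sym2 V | ∃ h : e ∈ G.edgeSet, ω ⟨e, h⟩ = true}).ConnectedComponent,
    c₁.supp.Infinite ∧ c₂.supp.Infinite ∧ c₁ ≠ c₂}

theorem cover : (Set.univ : Set ((GG D T).edgeSet → Bool)) ⊆
    ({ω | ∃ n, X 1 n (apex D T) ω = 0} ∪ {ω | ∃ n, X (-1) n (apex D T) ω = 0}) ∪
      (Bad D T ∪ Two (GG D T)) := by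
  intro ω _
  by_cases h1 : ∃ n, X 1 n (apex D T) ω = 0
  · exact Or.inl (Or.inl h1)
  by_cases h2 : ∃ n, X (-1) n (apex D T) ω = 0
  · exact Or.inl (Or.inr h2)
  by_cases h3 : ω ∈ Bad D T
  · exact Or.inr (Or.inl h3)
  push Not at h1 h2
  refine Or.inr (Or.inr ⟨_, _, inf_cluster (Or.inl rfl) ω h1, inf_cluster (Or.inr rfl) ω h2, ?_⟩)
  intro heq
  apply h3
  rw [SimpleGraph.ConnectedComponent.eq] at heq
  obtain ⟨W⟩ := heq
  rw [one_zsmul, neg_one_zsmul] at W
  exact bad_of_walk W (by rw [neg_neg]; exact apex_mem) _ apex_mem (SimpleGraph.Reachable.refl _)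

theorem numeric (D : ℕ) (hD : 6 ≤ D) : 6 * (D + 1) < 2 ^ D := by
  induction D, hD using Nat.le_induction with
  | base => norm_num
  | succ n hn ih =>
    rw [pow_succ]
    omega

/-- non-uniqueness for the graph `GG D T` -/
theorem nonuniq (D : ℕ) (hD : 6 ≤ D) : ∃ (T : ℕ) (p : NNReal) (hp : p ≤ 1), 0 < p ∧ p < 1 ∧
    0 < mu (GG D T) p hp (Two (GG D T)) := by
  obtain ⟨p, hpe⟩ : ∃ p : NNReal, p = 1 / (2 * (D : NNReal) + 3) := ⟨_, rfl⟩
  have hpR : (p : ℝ) = 1 / (2 * (D : ℝ) + 3) := by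
    rw [hpe]
    push_cast
    ring
  have hp0 : 0 < p := by
    rw [hpe]
    positivity
  have hp1 : p < 1 := by
    have : (p : ℝ) < 1 := by
      rw [hpR, div_lt_one (by positivity)]
      have : (0 : ℝ) ≤ D := Nat.cast_nonneg D
      linarith
    exact_mod_cast this
  obtain ⟨κ, hκe⟩ : ∃ κ : ℝ, κ = 3 / 2 * ((1 / (p : ℝ) - 1) / 2 ^ D) := ⟨_, rfl⟩
  have hκ2 : κ = 3 * (D + 1) / 2 ^ D := by
    rw [hκe, hpR]
    field_simp
    ring
  have hnum : (6 : ℝ) * (D + 1) < 2 ^ D := by exact_mod_cast numeric D hD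
  have hκ : κ < 1 / 2 := by
    rw [hκ2, div_lt_iff₀ (by positivity)]
    linarith
  have hκ0 : 0 ≤ κ := by rw [hκ2]; positivity
  have hr : 2 * ((D : ℝ) + 1) * p < 1 := by
    rw [hpR, mul_one_div, div_lt_one (by positivity)]
    linarith
  obtain ⟨ε, hε⟩ : ∃ ε : ℝ, ε = (1 - 2 * κ) / 2 := ⟨_, rfl⟩
  have hε0 : 0 < ε := by rw [hε]; linarith
  obtain ⟨T, hT⟩ := exists_T D p hp1.le hp0 hr ε hε0
  refine ⟨T, p, hp1.le, hp0, hp1, ?_⟩
  by_contra hc
  have hz : mu (GG D T) p hp1.le (Two (GG D T)) = 0 := by simpa using hc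
  have h1 := prob_all (T := T) (by omega : 3 ≤ D) p hp1.le hp0 κ hκe.ge (by linarith)
    (Or.inl rfl : (1 : ℤ) = 1 ∨ (1 : ℤ) = -1)
  have h2 := prob_all (T := T) (by omega : 3 ≤ D) p hp1.le hp0 κ hκe.ge (by linarith)
    (Or.inr rfl : (-1 : ℤ) = 1 ∨ (-1 : ℤ) = -1)
  have h3 : (1 : ENNReal) ≤ (ENNReal.ofReal κ + ENNReal.ofReal κ) + (ENNReal.ofReal ε + 0) := by
    calc (1 : ENNReal) = mu (GG D T) p hp1.le Set.univ := measure_univ.symm
      _ ≤ mu (GG D T) p hp1.le (({ω | ∃ n, X 1 n (apex D T) ω = 0} ∪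
          {ω | ∃ n, X (-1) n (apex D T) ω = 0}) ∪ (Bad D T ∪ Two (GG D T))) :=
          measure_mono cover
      _ ≤ _ := by
          refine (measure_union_le _ _).trans (add_le_add ?_ ?_)
          · exact (measure_union_le _ _).trans (add_le_add h1 h2)
          · refine (measure_union_le _ _).trans (add_le_add hT ?_)
            rw [hz]
  rw [add_zero, ← ENNReal.ofReal_add hκ0 hκ0, ← ENNReal.ofReal_add (by linarith) hε0.le,
    ← ENNReal.ofReal_one, ENNReal.ofReal_le_ofReal_iff (by linarith)] at h3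
  linarith

end Pool.Agent.H57R2.PU
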